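import Pool.Agent.H12.Ideals.Defs
import Pool.Agent.H12.Ideals.CH4

set_option autoImplicit false

universe u

namespace Pool.Agent.Results.MP_9f71a8_co.AlephOneUnderCH

open Cardinal Pool.Agent.H12.Ideals

/-- Under the continuum hypothesis, `F ℵ₁ = ℵ₂`. -/
theorem result (hCH : (𝔠 : Cardinal.{u}) = ℵ₁) : F (ℵ₁ : Cardinal.{u}) = ℵ_ 2 :=
  CH.F_aleph_one hCH

end Pool.Agent.Results.MP_9f71a8_co.AlephOneUnderCH
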