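import Pool.Agent.H12.Ideals.Defs
import Pool.Agent.H99.Ideals.Souslin
import Pool.Agent.H99.Ideals.S6

set_option autoImplicit false

universe u

namespace Pool.Agent.Results.MP_9f71a8_co.CompleteTable

open Cardinal Pool.Agent.H12.Ideals Pool.Agent.H99.Ideals

/-- Assume GCH and that every regular cardinal above `ℵ₁` which is not weakly compact carries a
Souslin tree (both axioms hold in the constructible universe). Then `F` is completely determined:
`F μ = μ` if `μ` is `ℵ₀`, weakly compact or singular, and `F μ = μ⁺` for all other infinite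
cardinals `μ`. -/
theorem result
    (hGCH : ∀ l : Cardinal.{u}, ℵ₀ ≤ l → (2 : Cardinal.{u}) ^ l = Order.succ l)
    (hSouslin : ∀ ν : Cardinal.{u}, ν.IsRegular → ℵ₁ < ν → ¬ WeaklyCompact ν →
      ∃ (T : Type u) (_ : PartialOrder T), IsSouslinTree ν T)
    (μ : Cardinal.{u}) (hμ : ℵ₀ ≤ μ) :
    ((μ = ℵ₀ ∨ WeaklyCompact μ ∨ μ.IsSingular) → F μ = μ) ∧
    (¬ (μ = ℵ₀ ∨ WeaklyCompact μ ∨ μ.IsSingular) → F μ = Order.succ μ) :=
  table hGCH hSouslin hμ

end Pool.Agent.Results.MP_9f71a8_co.CompleteTable
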