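import Pool.Agent.H12.Ideals.Defs
import Pool.Agent.H99.Ideals.S3

set_option autoImplicit false

universe u

namespace Pool.Agent.Results.MP_9f71a8_co.SingularStrongLimit

open Cardinal Pool.Agent.H12.Ideals

/-- Let `μ` be a singular strong limit cardinal, of arbitrary cofinality. Then every partial order
(of any size) without antichains of cardinality `μ` is covered by fewer than `μ` ideals, and
`F μ = μ`. (Under GCH every singular cardinal is a strong limit cardinal.) -/
theorem result (μ : Cardinal.{u}) (hμ : μ.IsSingular) (hst : μ.IsStrongLimit) :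
    (∀ (P : Type u) [PartialOrder P], InD μ P → CoveredByFewer μ P) ∧ F μ = μ :=
  ⟨fun P _ hP => Pool.Agent.H99.Ideals.coveredByFewer hμ hst P hP,
    Pool.Agent.H99.Ideals.F_eq hμ hst⟩

end Pool.Agent.Results.MP_9f71a8_co.SingularStrongLimit
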