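import Pool.Agent.H12.Ideals.Defs
import Pool.Agent.H12.Ideals.T2Final

set_option autoImplicit false

universe u

namespace Pool.Agent.Results.MP_9f71a8_co.WeaklyCompactCofinality

open Cardinal Pool.Agent.H12.Ideals

/-- Let `μ` be a singular cardinal whose cofinality is `ℵ₀` or a weakly compact cardinal. Then
`F μ` is the least upper bound of the cardinals `F l` for infinite `l < μ`; and if moreover `μ`
is a strong limit cardinal, then `F μ = μ`. -/
theorem result (μ : Cardinal.{u}) (hμ : μ.IsSingular)
    (hcf : μ.ord.cof = ℵ₀ ∨ WeaklyCompact μ.ord.cof) :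
    IsLUB (F '' Set.Ico ℵ₀ μ) (F μ) ∧ (μ.IsStrongLimit → F μ = μ) :=
  t2_main μ hμ hcf

end Pool.Agent.Results.MP_9f71a8_co.WeaklyCompactCofinality
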